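import Mathlib

namespace Pool.Agent.Results.MP_9eb66c_ag.NotConvex

open Finset

/-- the Artin cone `A^r_{n,2d}` -/
def Artin (n d r : ℕ) : Set (MvPolynomial (Fin n) ℝ) :=
  {p | p.IsHomogeneous (2 * d) ∧
    ∃ q : MvPolynomial (Fin n) ℝ, q ≠ 0 ∧ q.IsHomogeneous (2 * r) ∧ IsSumSq q ∧ IsSumSq (p * q)}

lemma sumsq_fin {R : Type} [CommRing R] {s : R} (h : IsSumSq s) :
    ∃ (n : ℕ) (g : Fin n → R), s = ∑ i, g i ^ 2 := by
  induction h with
  | zero => exact ⟨0, Fin.elim0, by simp⟩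
  | sq_add a _ ih =>
    obtain ⟨n, g, rfl⟩ := ih
    exact ⟨n + 1, Fin.cons a g, by simp [Fin.sum_univ_succ, pow_two]⟩

def FR (R : Type) [CommRing R] : Prop :=
  ∀ (n : ℕ) (g : Fin n → R), ∑ i, g i ^ 2 = 0 → ∀ i, g i = 0

lemma top {R : Type} [CommRing R] {n : ℕ} (g : Fin n → Polynomial R) (D : ℕ)
    (h : ∀ i, (g i).natDegree ≤ D) : (∑ i, g i ^ 2).coeff (2 * D) = ∑ i, (g i).coeff D ^ 2 := by
  rw [Polynomial.finsetSum_coeff]
  exact Finset.sum_congr rfl fun i _ => Polynomial.coeff_pow_of_natDegree_le (h i)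

lemma bound {R : Type} [CommRing R] (hR : FR R) {n : ℕ} (g : Fin n → Polynomial R) (k : ℕ)
    (h : (∑ i, g i ^ 2).natDegree ≤ 2 * k) (i : Fin n) : (g i).natDegree ≤ k := by
  by_contra hc
  obtain ⟨j, -, hj⟩ := Finset.exists_max_image Finset.univ (fun i => (g i).natDegree)
    ⟨i, Finset.mem_univ i⟩
  have h1 := top g (g j).natDegree (fun i => hj i (Finset.mem_univ i))
  have h2 := hj i (Finset.mem_univ i)
  rw [Polynomial.coeff_eq_zero_of_natDegree_lt (by omega)] at h1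
  have h3 := hR n _ h1.symm j
  have h4 : g j = 0 := Polynomial.leadingCoeff_eq_zero.mp h3
  rw [h4, Polynomial.natDegree_zero] at h2
  omega

lemma FR_real : FR ℝ := by
  intro n g h i
  have := (Finset.sum_eq_zero_iff_of_nonneg (fun i _ => sq_nonneg (g i))).mp h i
    (Finset.mem_univ i)
  exact pow_eq_zero_iff two_ne_zero |>.mp this

lemma FR_poly {R : Type} [CommRing R] (hR : FR R) : FR (Polynomial R) := by
  intro n g h i
  have hb := bound hR g 0 (by rw [h]; simp)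
  have h1 := top g 0 hb
  rw [h, Polynomial.coeff_zero] at h1
  have h2 := hR n _ h1.symm i
  rw [Polynomial.eq_C_of_natDegree_le_zero (hb i), h2, map_zero]

open Polynomial in
noncomputable def mot : Polynomial (Polynomial ℝ) :=
  C (X ^ 2) * X ^ 4 + C (X ^ 4 - 3 * X ^ 2) * X ^ 2 + 1

open Polynomial in
lemma mot_not (c : ℝ) (hc : 0 < c) {n : ℕ} (h : Fin n → Polynomial (Polynomial ℝ)) :
    ∑ i, h i ^ 2 ≠ C (C c) * mot := by
  intro e
  have hd : ∀ i, (h i).natDegree ≤ 2 := bound (FR_poly FR_real) h 2 (by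
    rw [e]; unfold mot; compute_degree)
  have c4 : ∑ i, (h i).coeff 2 ^ 2 = C c * X ^ 2 := by
    rw [← top h 2 hd, e]
    simp only [coeff_C_mul, mot, coeff_add, coeff_X_pow, coeff_one]
    norm_num
  have c0 : ∑ i, (h i).coeff 0 ^ 2 = C c := by
    have := congrArg (fun p => p.coeff 0) e
    simp only [finsetSum_coeff, pow_two, mul_coeff_zero] at this
    simp only [pow_two]
    rw [this]; simp [mot]
  have c2 : ∑ i, ((h i).coeff 1 ^ 2 + 2 * (h i).coeff 0 * (h i).coeff 2)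
      = C c * (X ^ 4 - 3 * X ^ 2) := by
    have := congrArg (fun p => p.coeff 2) e
    simp only [finsetSum_coeff, coeff_C_mul, mot, coeff_add, coeff_X_pow, coeff_one] at this
    norm_num at this
    rw [← this]
    apply Finset.sum_congr rfl
    intro i _
    rw [pow_two (h i), coeff_mul]
    simp [Finset.Nat.antidiagonal_succ]
    ring
  have d0 : ∀ i, ((h i).coeff 0).natDegree ≤ 0 := bound FR_real _ 0 (by rw [c0]; simp)
  have d2 : ∀ i, ((h i).coeff 2).natDegree ≤ 1 := bound FR_real _ 1 (by rw [c4]; compute_degree)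
  have z2 : ∀ i, ((h i).coeff 2).eval 0 = 0 := FR_real n _ (by
    have := congrArg (eval 0) c4
    simpa [eval_finsetSum] using this)
  have s0 : ∀ i, ((h i).coeff 0).eval (-1) = ((h i).coeff 0).eval 1 := fun i => by
    rw [eq_C_of_natDegree_le_zero (d0 i)]; simp
  have s2 : ∀ i, ((h i).coeff 2).eval (-1) = -((h i).coeff 2).eval 1 := fun i => by
    have := z2 i
    rw [eq_X_add_C_of_natDegree_le_one (d2 i)] at this ⊢
    simp only [eval_add, eval_mul, eval_C, eval_X, mul_zero, zero_add] at this ⊢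
    rw [this]; ring
  have a := congrArg (eval 1) c2
  have b := congrArg (eval (-1)) c2
  simp only [eval_finsetSum, eval_add, eval_mul, eval_pow, eval_ofNat, eval_C, eval_sub, eval_X,
    s0, s2, Finset.sum_add_distrib, mul_neg, Finset.sum_neg_distrib] at a b
  have p1 : 0 ≤ ∑ i, eval 1 ((h i).coeff 1) ^ 2 := Finset.sum_nonneg fun i _ => sq_nonneg _
  have p2 : 0 ≤ ∑ i, eval (-1) ((h i).coeff 1) ^ 2 := Finset.sum_nonneg fun i _ => sq_nonneg _
  linarith

open MvPolynomial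

lemma quad {σ R : Type} [CommRing R] [Algebra ℝ R] {q : MvPolynomial σ ℝ}
    (hq : q.IsHomogeneous 2) (u v : σ → R) (s : R) :
    aeval (fun i => u i + v i * s) q = aeval u q +
      (aeval (fun i => u i + v i) q - aeval u q - aeval v q) * s + aeval v q * s ^ 2 := by
  have lin : ∀ m ∈ homogeneousSubmodule σ ℝ 1, ∀ t : R,
      aeval (fun i => u i + v i * t) m = aeval u m + aeval v m * t := by
    intro m hm t
    rw [homogeneousSubmodule_one_eq_span_X] at hm
    induction hm using Submodule.span_induction with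
    | mem x hx => obtain ⟨i, rfl⟩ := hx; simp
    | zero => simp
    | add x y _ _ hx hy => simp only [map_add, hx, hy]; ring
    | smul a x _ hx => simp only [map_smul, hx, smul_add, smul_mul_assoc]
  have h2 : q ∈ homogeneousSubmodule σ ℝ 1 * homogeneousSubmodule σ ℝ 1 := by
    rw [← pow_two, homogeneousSubmodule_one_pow]; exact hq
  refine Submodule.mul_induction_on h2 ?_ ?_
  · intro m hm n hn
    have a := lin m hm 1
    have b := lin n hn 1
    simp only [mul_one] at a b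
    simp only [map_mul, lin m hm s, lin n hn s, a, b]
    ring
  · intro x y hx hy
    simp only [map_add, hx, hy]; ring

noncomputable def M (a b c : Fin 6) : MvPolynomial (Fin 6) ℝ :=
  X a ^ 4 * X b ^ 2 + X a ^ 2 * X b ^ 4 + X c ^ 6 - 3 * (X a ^ 2 * X b ^ 2 * X c ^ 2)

lemma M_hom (a b c : Fin 6) : (M a b c).IsHomogeneous (2 * 3) := by
  have hX : ∀ i : Fin 6, (X i : MvPolynomial (Fin 6) ℝ).IsHomogeneous 1 :=
    fun i => isHomogeneous_X ℝ i
  have h3 : (3 : MvPolynomial (Fin 6) ℝ).IsHomogeneous 0 := isHomogeneous_C (Fin 6) (3 : ℝ)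
  exact (((((hX a).pow 4).mul ((hX b).pow 2)).add (((hX a).pow 2).mul ((hX b).pow 4))).add
    ((hX c).pow 6)).sub (h3.mul ((((hX a).pow 2).mul ((hX b).pow 2)).mul ((hX c).pow 2)))

lemma M_mem (a b c : Fin 6) : M a b c ∈ Artin 6 3 1 := by
  have hX : ∀ i : Fin 6, (X i : MvPolynomial (Fin 6) ℝ).IsHomogeneous 1 :=
    fun i => isHomogeneous_X ℝ i
  have h4 : (4 : MvPolynomial (Fin 6) ℝ).IsHomogeneous 0 := isHomogeneous_C (Fin 6) (4 : ℝ)
  refine ⟨M_hom a b c, 4 * (X a ^ 2 + X b ^ 2 + X c ^ 2), ?_,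
    h4.mul ((((hX a).pow 2).add ((hX b).pow 2)).add ((hX c).pow 2)), ?_, ?_⟩
  · intro h
    have := congrArg (eval fun _ => (1 : ℝ)) h
    norm_num at this
  · have : (4 * (X a ^ 2 + X b ^ 2 + X c ^ 2) : MvPolynomial (Fin 6) ℝ) =
        ∑ i : Fin 3, ![2 * X a, 2 * X b, 2 * X c] i ^ 2 := by
      simp [Fin.sum_univ_succ]; ring
    rw [this]; exact IsSumSq.sum_sq _ _
  · have : M a b c * (4 * (X a ^ 2 + X b ^ 2 + X c ^ 2)) =
        ∑ i : Fin 7, ![2 * (X a ^ 2 * X b * X c - X b * X c ^ 3),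
          2 * (X a * X b ^ 2 * X c - X a * X c ^ 3), 2 * (X a ^ 2 * X b ^ 2 - X c ^ 4),
          X a * X b ^ 3 - X a ^ 3 * X b,
          X a * X b ^ 3 + X a ^ 3 * X b - 2 * X a * X b * X c ^ 2,
          X a * X b ^ 3 + X a ^ 3 * X b - 2 * X a * X b * X c ^ 2,
          X a * X b ^ 3 + X a ^ 3 * X b - 2 * X a * X b * X c ^ 2] i ^ 2 := by
      simp [Fin.sum_univ_succ, M]; ring
    rw [this]; exact IsSumSq.sum_sq _ _

lemma nonneg {q : MvPolynomial (Fin 6) ℝ} (h : IsSumSq q) (x : Fin 6 → ℝ) : 0 ≤ aeval x q := by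
  obtain ⟨n, g, rfl⟩ := sumsq_fin h
  simp only [map_sum, map_pow]
  exact Finset.sum_nonneg fun i _ => sq_nonneg _

lemma extract {R : Type} [CommRing R] [Algebra ℝ R] (hR : FR R) {p q : MvPolynomial (Fin 6) ℝ}
    (hq : q.IsHomogeneous 2) (h2 : IsSumSq (p * q)) (u : Fin 6 → R) (v : Fin 6 → ℝ) (m : R)
    (hp : aeval (fun i => Polynomial.C (u i) + Polynomial.C (algebraMap ℝ R (v i)) * Polynomial.X)
      p = Polynomial.C m) :
    ∃ (n : ℕ) (h : Fin n → R), ∑ i, h i ^ 2 = algebraMap ℝ R (aeval v q) * m := by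
  obtain ⟨n, g, hg⟩ := sumsq_fin h2
  have e := congrArg (aeval
    (fun i => Polynomial.C (u i) + Polynomial.C (algebraMap ℝ R (v i)) * Polynomial.X)) hg
  rw [map_mul, hp, quad hq (fun i => Polynomial.C (u i))
    (fun i => Polynomial.C (algebraMap ℝ R (v i))) Polynomial.X, map_sum] at e
  have nat : ∀ w : Fin 6 → R, aeval (fun i => Polynomial.C (w i)) q
      = Polynomial.C (aeval w q) := fun w =>
    (MvPolynomial.comp_aeval_apply (f := w) (Polynomial.CAlgHom (R := ℝ) (A := R)) q).symm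
  have nat2 : aeval (fun i => algebraMap ℝ R (v i)) q = algebraMap ℝ R (aeval v q) :=
    (MvPolynomial.comp_aeval_apply (f := v) (Algebra.ofId ℝ R) q).symm
  simp only [← map_add, nat, ← map_sub, nat2, map_pow] at e
  have hd := bound hR _ 1 (by rw [← e]; compute_degree)
  have h3 := top _ 1 hd
  rw [← e] at h3
  refine ⟨n, _, h3.symm.trans ?_⟩
  simp only [Polynomial.coeff_C_mul, Polynomial.coeff_add, Polynomial.coeff_X_pow,
    Polynomial.coeff_C, Polynomial.coeff_X]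
  simp [mul_comm]

lemma subst1 {R : Type} [CommRing R] [Algebra ℝ R] (x y : R) (a b : ℝ) (ha : a ^ 2 = 1)
    (hb : b ^ 2 = 1) :
    aeval (fun i => Polynomial.C (![x, y, 1, 0, 0, 0] i) +
      Polynomial.C (algebraMap ℝ R (![0, 0, 0, a, b, 1] i)) * Polynomial.X) (M 0 1 2 + M 3 4 5)
      = Polynomial.C (x ^ 2 * y ^ 4 + (x ^ 4 - 3 * x ^ 2) * y ^ 2 + 1) ∧
    aeval (fun i => Polynomial.C (![0, 0, 0, x, y, 1] i) +
      Polynomial.C (algebraMap ℝ R (![a, b, 1, 0, 0, 0] i)) * Polynomial.X) (M 0 1 2 + M 3 4 5)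
      = Polynomial.C (x ^ 2 * y ^ 4 + (x ^ 4 - 3 * x ^ 2) * y ^ 2 + 1) := by
  have ha' : (Polynomial.C (algebraMap ℝ R a)) ^ 2 = 1 := by rw [← map_pow, ← map_pow, ha]; simp
  have hb' : (Polynomial.C (algebraMap ℝ R b)) ^ 2 = 1 := by rw [← map_pow, ← map_pow, hb]; simp
  simp only [M, map_add, map_sub, map_mul, map_pow, aeval_X, map_ofNat, map_one, map_zero,
    Matrix.cons_val]
  generalize Polynomial.C (algebraMap ℝ R a) = A at *
  generalize Polynomial.C (algebraMap ℝ R b) = B at *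
  constructor <;>
  linear_combination Polynomial.X ^ 6 * ((A ^ 2 + 1) * B ^ 2 + B ^ 4 - 3 * B ^ 2) * ha' +
    Polynomial.X ^ 6 * (B ^ 2 - 1) * hb'

lemma mot_eq : (Polynomial.C Polynomial.X : Polynomial (Polynomial ℝ)) ^ 2 * Polynomial.X ^ 4 +
    (Polynomial.C Polynomial.X ^ 4 - 3 * Polynomial.C Polynomial.X ^ 2) * Polynomial.X ^ 2 + 1
      = mot := by
  simp only [mot, map_pow, map_sub, map_mul, map_ofNat]

lemma vanish {q : MvPolynomial (Fin 6) ℝ} (h1 : IsSumSq q) {v : Fin 6 → ℝ}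
    (h : ∃ (n : ℕ) (h : Fin n → Polynomial (Polynomial ℝ)),
      ∑ i, h i ^ 2 = algebraMap ℝ _ (aeval v q) * mot) : aeval v q = 0 := by
  by_contra hc
  have hpos : 0 < aeval v q := lt_of_le_of_ne (nonneg h1 v) (Ne.symm hc)
  obtain ⟨n, g, hg⟩ := h
  exact mot_not _ hpos g hg

lemma transl {q : MvPolynomial (Fin 6) ℝ} (hq : q.IsHomogeneous 2) (h1 : IsSumSq q)
    {v : Fin 6 → ℝ} (hv : aeval v q = 0) (u : Fin 6 → ℝ) (s : ℝ) :
    aeval (fun i => u i + v i * s) q = aeval u q := by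
  have h := fun t => quad hq u v t
  simp only [hv, zero_mul, add_zero, sub_zero] at h
  set b := aeval (fun i => u i + v i) q - aeval u q with hb
  have hb0 : b = 0 := by
    by_contra hc
    have := nonneg h1 (fun i => u i + v i * (-(aeval u q + 1) / b))
    rw [h] at this
    have e : b * (-(aeval u q + 1) / b) = -(aeval u q + 1) := by field_simp
    linarith
  rw [h, hb0, zero_mul, add_zero]

theorem result : ∃ p₁ ∈ Artin 6 3 1, ∃ p₂ ∈ Artin 6 3 1, p₁ + p₂ ∉ Artin 6 3 1 := by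
  refine ⟨_, M_mem 0 1 2, _, M_mem 3 4 5, ?_⟩
  rintro ⟨-, q, h0, hq, h1, h2⟩
  have A : ∀ a b : ℝ, a ^ 2 = 1 → b ^ 2 = 1 → aeval ![0, 0, 0, a, b, 1] q = 0 := fun a b ha hb =>
    vanish h1 (mot_eq ▸ extract (FR_poly (FR_poly FR_real)) hq h2 _ _ _ (subst1 _ _ a b ha hb).1)
  have B : ∀ a b : ℝ, a ^ 2 = 1 → b ^ 2 = 1 → aeval ![a, b, 1, 0, 0, 0] q = 0 := fun a b ha hb =>
    vanish h1 (mot_eq ▸ extract (FR_poly (FR_poly FR_real)) hq h2 _ _ _ (subst1 _ _ a b ha hb).2)
  have a1 := transl hq h1 (A 1 1 (by norm_num) (by norm_num))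
  have a2 := transl hq h1 (A (-1) 1 (by norm_num) (by norm_num))
  have a3 := transl hq h1 (A 1 (-1) (by norm_num) (by norm_num))
  have b1 := transl hq h1 (B 1 1 (by norm_num) (by norm_num))
  have b2 := transl hq h1 (B (-1) 1 (by norm_num) (by norm_num))
  have b3 := transl hq h1 (B 1 (-1) (by norm_num) (by norm_num))
  apply h0
  apply MvPolynomial.funext
  intro x
  have z := A 1 1 (by norm_num) (by norm_num)
  rw [← a1 _ ((x 3 + x 4) / 2 - 1), ← a2 _ ((x 5 - x 3) / 2), ← a3 _ ((x 5 - x 4) / 2),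
    ← b1 _ ((x 0 + x 1) / 2), ← b2 _ ((x 2 - x 0) / 2), ← b3 _ ((x 2 - x 1) / 2)] at z
  rw [map_zero, ← coe_aeval_eq_eval, RingHom.coe_coe, ← z]
  congr 2
  funext i
  fin_cases i <;> simp <;> ring

end Pool.Agent.Results.MP_9eb66c_ag.NotConvex
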